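import Pool.Agent.Q137.SN.Basic

/-!
# Corners and arithmetic progressions in sets of small spectral norm
-/

set_option autoImplicit false

namespace Pool.Agent.Q137.SN

open Finset

variable {G : Type} [AddCommGroup G] [Fintype G] [DecidableEq G]

/-- a union bound for `k` translates in a level set -/
theorem union_bound {A : Finset G} {L : Finset (AddChar G ℂ)} {x₀ : G} {k : ℕ} {η : ℝ}
    (hk : (k : ℝ) * η ≤ 1) (u : Fin k → G) (hu : ∀ i, ∀ ψ ∈ L, ψ (u i) = 1)
    (h : (1 - η) * (level L x₀).card < ((A ∩ level L x₀).card : ℝ)) :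
    ∃ x, ∀ i, x + u i ∈ A := by
  by_contra hno
  push Not at hno
  have h1 : ∀ x ∈ level L x₀, (1 : ℝ) ≤ ∑ i : Fin k, if x + u i ∈ A then (0 : ℝ) else 1 := by
    intro x _
    obtain ⟨i, hi⟩ := hno x
    have h2 : (if x + u i ∈ A then (0 : ℝ) else 1) ≤
        ∑ i : Fin k, if x + u i ∈ A then (0 : ℝ) else 1 :=
      single_le_sum (f := fun i => if x + u i ∈ A then (0 : ℝ) else 1)
        (fun j _ => by split_ifs <;> norm_num) (mem_univ i)
    rwa [if_neg hi] at h2
  have h2 : ((level L x₀).card : ℝ) ≤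
      ∑ x ∈ level L x₀, ∑ i : Fin k, if x + u i ∈ A then (0 : ℝ) else 1 := by
    have := sum_le_sum h1
    rwa [sum_const, nsmul_eq_mul, mul_one] at this
  rw [sum_comm] at h2
  have h3 : ∀ i : Fin k, (∑ x ∈ level L x₀, if x + u i ∈ A then (0 : ℝ) else 1) =
      (level L x₀).card - (A ∩ level L x₀).card := by
    intro i
    rw [sum_shift (hu i) (fun x => if x ∈ A then (0 : ℝ) else 1)]
    have h4 : ∀ x : G, (if x ∈ A then (0 : ℝ) else 1) = 1 - (if x ∈ A then (1 : ℝ) else 0) := by
      intro x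
      split_ifs <;> norm_num
    rw [sum_congr rfl fun x _ => h4 x, sum_sub_distrib, sum_const, nsmul_eq_mul, mul_one,
      sum_boole]
    congr 3
    ext x
    simp [and_comm]
  rw [sum_congr rfl fun i _ => h3 i, sum_const, card_univ, Fintype.card_fin, nsmul_eq_mul] at h2
  have h5 : (0 : ℝ) < (level L x₀).card := by
    rw [Nat.cast_pos, card_pos]
    exact ⟨x₀, self_mem L x₀⟩
  rcases Nat.eq_zero_or_pos k with h6 | h6
  · rw [h6, Nat.cast_zero, zero_mul] at h2
    linarith
  · have h7 : (0 : ℝ) < k := by exact_mod_cast h6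
    have h8 : (k : ℝ) * (((level L x₀).card : ℝ) - (A ∩ level L x₀).card) <
        k * (η * (level L x₀).card) := by
      apply mul_lt_mul_of_pos_left _ h7
      linarith
    have h9 : (k : ℝ) * (η * (level L x₀).card) ≤ (level L x₀).card := by
      rw [← mul_assoc]
      nlinarith
    linarith

/-- the values of characters on a group of exponent `m` -/
theorem char_pow {H : Type} [AddCommGroup H] {m : ℕ} (hm : ∀ g : H, m • g = 0) (ψ : AddChar H ℂ)
    (g : H) : ψ g ^ m = 1 := by
  rw [← AddChar.map_nsmul_eq_pow, hm g, AddChar.map_zero_eq_one]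

/-- pigeonhole: a nonzero element on which finitely many characters are trivial -/
theorem exists_ne {H ι : Type} [AddCommGroup H] [Fintype H] [Fintype ι] {m : ℕ} (hm0 : 0 < m)
    (hm : ∀ g : H, m • g = 0) (φ : ι → AddChar H ℂ)
    (hc : m ^ Fintype.card ι < Fintype.card H) : ∃ z : H, z ≠ 0 ∧ ∀ i, φ i z = 1 := by
  classical
  set T : Finset ℂ := (Polynomial.nthRoots m (1 : ℂ)).toFinset with hT
  have hTm : T.card ≤ m :=
    (Multiset.toFinset_card_le _).trans (Polynomial.card_nthRoots m 1)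
  have h1 : ∀ z ∈ (univ : Finset H), (fun i => φ i z) ∈ Fintype.piFinset fun _ : ι => T := by
    intro z _
    rw [Fintype.mem_piFinset]
    intro i
    rw [hT, Multiset.mem_toFinset, Polynomial.mem_nthRoots hm0]
    exact char_pow hm (φ i) z
  have h2 : (Fintype.piFinset fun _ : ι => T).card < (univ : Finset H).card := by
    rw [Fintype.card_piFinset, prod_const, card_univ, card_univ]
    exact lt_of_le_of_lt (Nat.pow_le_pow_left hTm _) hc
  obtain ⟨a, -, b, -, hab, h3⟩ := exists_ne_map_eq_of_card_lt_of_maps_to h2 h1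
  refine ⟨a - b, sub_ne_zero.2 hab, fun i => ?_⟩
  have h4 : φ i a = φ i b := congrFun h3 i
  rw [AddChar.map_sub_eq_div, h4, div_self (char_ne_zero (φ i) b)]

/-- **Corners.** -/
theorem corners {H : Type} [AddCommGroup H] [Fintype H] [DecidableEq H] {m : ℕ} (hm0 : 0 < m)
    (hm : ∀ g : H, m • g = 0) (A : Finset (H × H)) (hA : A.Nonempty)
    (hfree : ∀ x y z : H, (x, y) ∈ A → (x, y + z) ∈ A → (x + z, y) ∈ A → z = 0) :
    Real.log (Fintype.card H) ≤ 2 * Real.log m *
      ((6 * specNorm A + 1) * Real.log ((Fintype.card H : ℝ) ^ 2 / A.card) + 1) := by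
  obtain ⟨L, x₀, h1, h2⟩ := dense_piece A hA (one_le_specNorm hA) le_rfl
    (η := 1 / 3) (by norm_num) (by norm_num)
  have hcard : (Fintype.card (H × H) : ℝ) = (Fintype.card H : ℝ) ^ 2 := by
    rw [Fintype.card_prod]
    push_cast
    ring
  rw [hcard] at h1
  have h6 : 2 * specNorm A / (1 / 3) + 1 = 6 * specNorm A + 1 := by ring
  rw [h6] at h1
  by_contra hlt
  push Not at hlt
  have hlogm : 0 ≤ Real.log m := Real.log_natCast_nonneg m
  have h3 : 2 * Real.log m * (L.card : ℝ) < Real.log (Fintype.card H) := by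
    refine lt_of_le_of_lt ?_ hlt
    exact mul_le_mul_of_nonneg_left h1 (by linarith)
  -- the two families of characters
  let φ : (L × Fin 2) → AddChar H ℂ := fun p => match p.2 with
    | 0 => AddChar.compAddMonoidHom p.1.1 (AddMonoidHom.inl H H)
    | 1 => AddChar.compAddMonoidHom p.1.1 (AddMonoidHom.inr H H)
  have hc : m ^ Fintype.card (L × Fin 2) < Fintype.card H := by
    rw [Fintype.card_prod, Fintype.card_coe, Fintype.card_fin]
    have h4 : Real.log ((m : ℝ) ^ (L.card * 2)) < Real.log (Fintype.card H) := by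
      rw [Real.log_pow]
      push_cast
      linarith
    have h5 := (Real.log_lt_log_iff (by positivity) (by
      rw [Nat.cast_pos]
      exact Fintype.card_pos)).1 h4
    exact_mod_cast h5
  obtain ⟨z, hz, hφ⟩ := exists_ne hm0 hm φ hc
  have hz1 : ∀ ψ ∈ L, ψ (z, 0) = 1 := fun ψ hψ => hφ (⟨ψ, hψ⟩, 0)
  have hz2 : ∀ ψ ∈ L, ψ (0, z) = 1 := fun ψ hψ => hφ (⟨ψ, hψ⟩, 1)
  obtain ⟨v, hv⟩ := union_bound (k := 3) (η := 1 / 3) (by norm_num)
    ![(0, 0), (0, z), (z, 0)] (by
      intro i ψ hψ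
      fin_cases i
      · exact AddChar.map_zero_eq_one ψ
      · exact hz2 ψ hψ
      · exact hz1 ψ hψ) h2
  obtain ⟨x, y⟩ := v
  have e0 := hv 0
  have e1 := hv 1
  have e2 := hv 2
  simp only [Matrix.cons_val_zero, Matrix.cons_val_one, Matrix.cons_val, Prod.mk_add_mk,
    add_zero] at e0 e1 e2
  exact hz (hfree x y z e0 e1 e2)

/-- **Progressions.** -/
theorem progressions {p n : ℕ} [Fact p.Prime] {k : ℕ} (hk : 2 ≤ k)
    (A : Finset (Fin n → ZMod p)) (hA : A.Nonempty)
    (hfree : ∀ x y : Fin n → ZMod p, (∀ i : Fin k, x + (i : ℕ) • y ∈ A) → y = 0) :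
    (n : ℝ) ≤ (2 * k * specNorm A + 1) * Real.log ((p : ℝ) ^ n / A.card) + 1 := by
  have hk0 : (0 : ℝ) < k := by
    have : 0 < k := by omega
    exact_mod_cast this
  have hk1 : (1 : ℝ) / k < 1 := by
    rw [div_lt_one hk0]
    exact_mod_cast (by omega : 1 < k)
  obtain ⟨L, x₀, h1, h2⟩ := dense_piece A hA (one_le_specNorm hA) le_rfl
    (η := 1 / k) (by positivity) hk1
  have hcard : (Fintype.card (Fin n → ZMod p) : ℝ) = (p : ℝ) ^ n := by
    rw [Fintype.card_fun, ZMod.card, Fintype.card_fin]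
    push_cast
    rfl
  rw [hcard] at h1
  have h6 : 2 * specNorm A / (1 / (k : ℝ)) + 1 = 2 * k * specNorm A + 1 := by
    field_simp
  rw [h6] at h1
  by_contra hlt
  push Not at hlt
  have h3 : (L.card : ℝ) < n := lt_of_le_of_lt h1 hlt
  have h4 : L.card < n := by exact_mod_cast h3
  have hp : 1 < p := (Fact.out : p.Prime).one_lt
  obtain ⟨z, hz, hφ⟩ := exists_ne (H := Fin n → ZMod p) (ι := L) (m := p) (by omega)
    (by
      intro g
      ext i
      simp) (fun ψ => ψ.1) (by
      rw [Fintype.card_coe, Fintype.card_fun, ZMod.card, Fintype.card_fin]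
      exact Nat.pow_lt_pow_right hp h4)
  obtain ⟨x, hx⟩ := union_bound (k := k) (η := 1 / k) (by field_simp; norm_num)
    (fun i : Fin k => (i : ℕ) • z) (by
      intro i ψ hψ
      rw [AddChar.map_nsmul_eq_pow, hφ ⟨ψ, hψ⟩, one_pow]) h2
  exact hz (hfree x z hx)

end Pool.Agent.Q137.SN
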