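import Mathlib

/-!
# Sets of small spectral norm: density increments on intersections of level sets of characters
-/

set_option autoImplicit false

namespace Pool.Agent.Q137.SN

open Finset

section

variable {G : Type} [AddCommGroup G] [Fintype G]

/-- The Fourier coefficient of the indicator function of `A` at the character `ψ`:
`(1 / |G|) ∑_{x ∈ A} ψ(-x)`. -/
noncomputable def coef (A : Finset G) (ψ : AddChar G ℂ) : ℂ :=
  (∑ x ∈ A, ψ (-x)) / (Fintype.card G : ℂ)

/-- The spectral norm of `A`: the sum of the absolute values of all Fourier coefficients of its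
indicator function. -/
noncomputable def specNorm (A : Finset G) : ℝ := ∑ ψ : AddChar G ℂ, ‖coef A ψ‖

variable [DecidableEq G]

theorem inversion (A : Finset G) (x : G) :
    (if x ∈ A then (1 : ℂ) else 0) = ∑ ψ : AddChar G ℂ, coef A ψ * ψ x := by
  have hc : (Fintype.card G : ℂ) ≠ 0 := by
    rw [Nat.cast_ne_zero]
    exact Fintype.card_ne_zero
  have h1 : ∀ ψ : AddChar G ℂ, coef A ψ * ψ x = (∑ y ∈ A, ψ (x - y)) / (Fintype.card G : ℂ) := by
    intro ψ
    unfold coef
    rw [div_mul_eq_mul_div, sum_mul]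
    congr 1
    refine sum_congr rfl fun y _ => ?_
    rw [sub_eq_neg_add, AddChar.map_add_eq_mul]
  rw [sum_congr rfl fun ψ _ => h1 ψ, ← sum_div, sum_comm]
  have h2 : ∀ y ∈ A, ∑ ψ : AddChar G ℂ, ψ (x - y) =
      if y = x then (Fintype.card G : ℂ) else 0 := by
    intro y _
    rw [AddChar.sum_apply_eq_ite]
    by_cases h : y = x
    · rw [if_pos h, if_pos (by rw [h, sub_self])]
    · rw [if_neg h, if_neg (fun h0 => h (sub_eq_zero.1 h0).symm)]
  rw [sum_congr rfl h2, sum_ite_eq']
  split_ifs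
  · rw [div_self hc]
  · rw [zero_div]

omit [Fintype G] [DecidableEq G] in
theorem char_ne_zero [Finite G] (ψ : AddChar G ℂ) (x : G) : ψ x ≠ 0 := by
  rw [← norm_ne_zero_iff, AddChar.norm_apply]
  exact one_ne_zero

theorem one_le_specNorm {A : Finset G} (hA : A.Nonempty) : 1 ≤ specNorm A := by
  obtain ⟨x, hx⟩ := hA
  have h := inversion A x
  rw [if_pos hx] at h
  have h1 : ‖(1 : ℂ)‖ ≤ specNorm A := by
    rw [h]
    refine (norm_sum_le _ _).trans (sum_le_sum fun ψ _ => ?_)
    rw [norm_mul, AddChar.norm_apply, mul_one]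
  simpa using h1

/-- The points at which all characters from `L` have the same values as at `x₀`. -/
noncomputable def level (L : Finset (AddChar G ℂ)) (x₀ : G) : Finset G :=
  univ.filter fun x => ∀ ψ ∈ L, ψ x = ψ x₀

omit [DecidableEq G] in
theorem mem_level {L : Finset (AddChar G ℂ)} {x₀ x : G} :
    x ∈ level L x₀ ↔ ∀ ψ ∈ L, ψ x = ψ x₀ := by
  simp [level]

theorem self_mem (L : Finset (AddChar G ℂ)) (x₀ : G) : x₀ ∈ level L x₀ :=
  mem_level.2 fun _ _ => rfl

/-- translations by elements of the kernels -/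
theorem add_mem {L : Finset (AddChar G ℂ)} {x₀ u : G} (hu : ∀ ψ ∈ L, ψ u = 1) (x : G) :
    x + u ∈ level L x₀ ↔ x ∈ level L x₀ := by
  rw [mem_level, mem_level]
  refine forall₂_congr fun ψ hψ => ?_
  rw [AddChar.map_add_eq_mul, hu ψ hψ, mul_one]

theorem sub_char {L : Finset (AddChar G ℂ)} {x₀ x : G} (hx : x ∈ level L x₀) :
    ∀ ψ ∈ L, ψ (x - x₀) = 1 := by
  intro ψ hψ
  have h := mem_level.1 hx ψ hψ
  rw [AddChar.map_sub_eq_div, h, div_self (char_ne_zero ψ x₀)]

theorem sum_shift {β : Type} [AddCommMonoid β] {L : Finset (AddChar G ℂ)} {x₀ u : G}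
    (hu : ∀ ψ ∈ L, ψ u = 1) (f : G → β) :
    ∑ x ∈ level L x₀, f (x + u) = ∑ x ∈ level L x₀, f x :=
  sum_equiv (Equiv.addRight u) (fun x => (add_mem hu x).symm) fun _ _ => rfl

/-- orthogonality -/
theorem sum_nonconst {L : Finset (AddChar G ℂ)} {x₀ : G} {ψ : AddChar G ℂ}
    (h : ¬ ∀ x ∈ level L x₀, ψ x = ψ x₀) : ∑ x ∈ level L x₀, ψ x = 0 := by
  push Not at h
  obtain ⟨x₁, h1, h2⟩ := h
  have h3 := sum_shift (sub_char h1) (fun x => ψ x) (x₀ := x₀)
  have h4 : ∑ x ∈ level L x₀, ψ (x + (x₁ - x₀)) = ψ (x₁ - x₀) * ∑ x ∈ level L x₀, ψ x := by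
    rw [mul_sum]
    refine sum_congr rfl fun x _ => ?_
    rw [AddChar.map_add_eq_mul, mul_comm]
  rw [h4] at h3
  by_contra h5
  apply h2
  have h6 : ψ (x₁ - x₀) = 1 := by
    apply mul_right_cancel₀ h5
    rw [h3, one_mul]
  have h7 : ψ x₁ = ψ ((x₁ - x₀) + x₀) := by rw [sub_add_cancel]
  rw [h7, AddChar.map_add_eq_mul, h6, one_mul]

/-- **The increment.** If the density of `A` in the level set is `α`, `0 < α < 1`, then there is a
character such that the density is at least `α + α (1 - α) / (2 M)` in a level set for one more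
character. -/
theorem increment (A : Finset G) (L : Finset (AddChar G ℂ)) (x₀ : G) {M α : ℝ} (hM1 : 1 ≤ M)
    (hM : specNorm A ≤ M) (hα : ((A ∩ level L x₀).card : ℝ) = α * (level L x₀).card)
    (h0 : 0 < α) (h1 : α < 1) : ∃ (ψ : AddChar G ℂ) (x₁ : G),
      (α + α * (1 - α) / (2 * M)) * (level (insert ψ L) x₁).card ≤
        ((A ∩ level (insert ψ L) x₁).card : ℝ) := by
  classical
  set W := level L x₀ with hW
  set N : ℝ := (W.card : ℝ) with hN
  have hNpos : 0 < N := by
    rw [hN, Nat.cast_pos, card_pos]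
    exact ⟨x₀, self_mem L x₀⟩
  set f : G → ℂ := fun x => if x ∈ A then 1 else 0 with hf
  set NC : Finset (AddChar G ℂ) := univ.filter fun ψ => ¬ ∀ x ∈ W, ψ x = ψ x₀ with hNC
  set CC : Finset (AddChar G ℂ) := univ.filter fun ψ => ∀ x ∈ W, ψ x = ψ x₀ with hCC
  have hsumf : ∑ x ∈ W, f x = ((α * N : ℝ) : ℂ) := by
    rw [← hα, hf, sum_boole]
    have h2 : (W.filter fun x => x ∈ A) = A ∩ W := by
      ext x
      simp [and_comm]
    rw [h2, Complex.ofReal_natCast]
  -- the characters which are constant on `W`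
  have hconst : ∑ ψ ∈ CC, coef A ψ * ψ x₀ = (α : ℂ) := by
    have h2 : ∑ x ∈ W, f x = ∑ ψ : AddChar G ℂ, coef A ψ * ∑ x ∈ W, ψ x := by
      rw [hf, sum_congr rfl fun x _ => inversion A x, sum_comm]
      refine sum_congr rfl fun ψ _ => ?_
      rw [mul_sum]
    have h3 : ∑ ψ : AddChar G ℂ, coef A ψ * ∑ x ∈ W, ψ x =
        ∑ ψ ∈ CC, coef A ψ * (ψ x₀ * (N : ℂ)) := by
      rw [← sum_filter_add_sum_filter_not univ (fun ψ : AddChar G ℂ => ∀ x ∈ W, ψ x = ψ x₀)]
      have h4 : ∑ ψ ∈ NC, coef A ψ * ∑ x ∈ W, ψ x = 0 := by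
        refine sum_eq_zero fun ψ hψ => ?_
        rw [sum_nonconst (mem_filter.1 hψ).2, mul_zero]
      rw [h4, add_zero]
      refine sum_congr rfl fun ψ hψ => ?_
      congr 1
      rw [sum_congr rfl (mem_filter.1 hψ).2, sum_const, nsmul_eq_mul, mul_comm, hN,
        Complex.ofReal_natCast]
    have h5 : (∑ ψ ∈ CC, coef A ψ * ψ x₀) * (N : ℂ) = (α : ℂ) * (N : ℂ) := by
      rw [← Complex.ofReal_mul, ← hsumf, h2, h3, sum_mul]
      refine sum_congr rfl fun ψ _ => ?_
      ring
    exact mul_right_cancel₀ (by exact_mod_cast hNpos.ne') h5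
  -- the sums over the nonconstant characters
  have hmain : (((1 - α) * (α * N) : ℝ) : ℂ) =
      ∑ ψ ∈ NC, coef A ψ * ∑ x ∈ W, f x * ψ x := by
    have h2 : ∑ x ∈ W, f x = ∑ ψ : AddChar G ℂ, coef A ψ * ∑ x ∈ W, f x * ψ x := by
      have h3 : ∀ x ∈ W, f x = ∑ ψ : AddChar G ℂ, coef A ψ * (f x * ψ x) := by
        intro x _
        have h4 := inversion A x
        have h5 : f x = f x * f x := by
          simp only [hf]
          split_ifs <;> simp
        nth_rewrite 1 [h5]
        nth_rewrite 2 [hf]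
        simp only
        rw [h4, mul_sum]
        refine sum_congr rfl fun ψ _ => ?_
        ring
      rw [sum_congr rfl h3, sum_comm]
      refine sum_congr rfl fun ψ _ => ?_
      rw [mul_sum]
    rw [← sum_filter_add_sum_filter_not univ (fun ψ : AddChar G ℂ => ∀ x ∈ W, ψ x = ψ x₀)] at h2
    have h3 : ∑ ψ ∈ CC, coef A ψ * ∑ x ∈ W, f x * ψ x = (α : ℂ) * ∑ x ∈ W, f x := by
      rw [← hconst, sum_mul]
      refine sum_congr rfl fun ψ hψ => ?_
      have h4 : ∑ x ∈ W, f x * ψ x = ψ x₀ * ∑ x ∈ W, f x := by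
        rw [mul_sum]
        refine sum_congr rfl fun x hx => ?_
        rw [(mem_filter.1 hψ).2 x hx, mul_comm]
      rw [h4, mul_assoc]
    rw [h3, hsumf] at h2
    push_cast at h2 ⊢
    linear_combination h2
  -- a character with a large sum
  have hlarge : ∃ ψ ∈ NC, (1 - α) * (α * N) / M ≤ ‖∑ x ∈ W, f x * ψ x‖ := by
    by_contra hno
    push Not at hno
    have hpos : 0 < (1 - α) * (α * N) := by
      apply mul_pos (by linarith)
      exact mul_pos h0 hNpos
    have h2 : (1 - α) * (α * N) ≤ ∑ ψ ∈ NC, ‖coef A ψ‖ * ‖∑ x ∈ W, f x * ψ x‖ := by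
      have h3 := congrArg norm hmain
      rw [Complex.norm_real, Real.norm_of_nonneg hpos.le] at h3
      rw [h3]
      refine (norm_sum_le _ _).trans (le_of_eq ?_)
      refine sum_congr rfl fun ψ _ => norm_mul _ _
    have h4 : ∑ ψ ∈ NC, ‖coef A ψ‖ ≤ M :=
      (sum_le_sum_of_subset_of_nonneg (subset_univ _) fun _ _ _ => norm_nonneg _).trans hM
    by_cases h5 : ∃ ψ ∈ NC, ‖coef A ψ‖ ≠ 0
    · obtain ⟨ψ₁, h6, h7⟩ := h5
      have h8 : ∑ ψ ∈ NC, ‖coef A ψ‖ * ‖∑ x ∈ W, f x * ψ x‖ <
          ∑ ψ ∈ NC, ‖coef A ψ‖ * ((1 - α) * (α * N) / M) := by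
        refine sum_lt_sum (fun ψ hψ => ?_) ⟨ψ₁, h6, ?_⟩
        · exact mul_le_mul_of_nonneg_left (hno ψ hψ).le (norm_nonneg _)
        · exact mul_lt_mul_of_pos_left (hno ψ₁ h6)
            (lt_of_le_of_ne (norm_nonneg _) (Ne.symm h7))
      rw [← sum_mul] at h8
      have h9 : (∑ ψ ∈ NC, ‖coef A ψ‖) * ((1 - α) * (α * N) / M) ≤ (1 - α) * (α * N) := by
        calc (∑ ψ ∈ NC, ‖coef A ψ‖) * ((1 - α) * (α * N) / M)
            ≤ M * ((1 - α) * (α * N) / M) :=
              mul_le_mul_of_nonneg_right h4 (div_nonneg hpos.le (by linarith))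
          _ = (1 - α) * (α * N) := by
              field_simp
      linarith
    · push Not at h5
      have h6 : ∑ ψ ∈ NC, ‖coef A ψ‖ * ‖∑ x ∈ W, f x * ψ x‖ = 0 :=
        sum_eq_zero fun ψ hψ => by rw [h5 ψ hψ, zero_mul]
      linarith
  obtain ⟨ψ, hψ, hS⟩ := hlarge
  by_contra hno
  push Not at hno
  set δ : ℝ := α * (1 - α) / (2 * M) with hδ
  have hδpos : 0 < δ := by
    rw [hδ]
    apply div_pos (mul_pos h0 (by linarith)) (by linarith)
  -- group by the values of `ψ`
  set T := W.image fun x => ψ x with hT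
  set D : ℂ → ℝ := fun t => ∑ x ∈ W.filter (fun x => ψ x = t), ((if x ∈ A then (1 : ℝ) else 0) - α)
    with hD
  have hfib : ∀ t ∈ T, D t < δ * ((W.filter fun x => ψ x = t).card : ℝ) := by
    intro t ht
    obtain ⟨x₁, hx₁, rfl⟩ := mem_image.1 ht
    have h2 : level (insert ψ L) x₁ = W.filter (fun x => ψ x = ψ x₁) := by
      ext x
      rw [mem_filter, mem_level, hW, mem_level]
      simp only [mem_insert, forall_eq_or_imp]
      rw [hW] at hx₁
      constructor
      · rintro ⟨h3, h4⟩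
        refine ⟨fun φ hφ => ?_, h3⟩
        rw [h4 φ hφ]
        exact mem_level.1 hx₁ φ hφ
      · rintro ⟨h3, h4⟩
        refine ⟨h4, fun φ hφ => ?_⟩
        rw [h3 φ hφ]
        exact (mem_level.1 hx₁ φ hφ).symm
    have h3 := hno ψ x₁
    rw [h2] at h3
    have h4 : D (ψ x₁) = ((A ∩ W.filter (fun x => ψ x = ψ x₁)).card : ℝ) -
        α * ((W.filter fun x => ψ x = ψ x₁).card : ℝ) := by
      simp only [hD]
      rw [sum_sub_distrib, sum_const, nsmul_eq_mul, sum_boole]
      congr 1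
      · congr 2
        ext x
        simp only [mem_filter, mem_inter]
        tauto
      · ring
    rw [h4]
    linarith
  have hDsum : ∑ t ∈ T, D t = 0 := by
    have h2 : ∑ t ∈ T, D t = ∑ x ∈ W, ((if x ∈ A then (1 : ℝ) else 0) - α) :=
      sum_fiberwise_of_maps_to (fun x hx => mem_image_of_mem _ hx) _
    rw [h2, sum_sub_distrib, sum_const, nsmul_eq_mul, sum_boole]
    have h3 : (W.filter fun x => x ∈ A) = A ∩ W := by
      ext x
      simp only [mem_filter, mem_inter]
      tauto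
    rw [h3, hα]
    ring
  have hcard : ∑ t ∈ T, ((W.filter fun x => ψ x = t).card : ℝ) = N := by
    rw [hN, ← Nat.cast_sum]
    congr 1
    exact (card_eq_sum_card_image _ _).symm
  have hSle : ‖∑ x ∈ W, f x * ψ x‖ ≤ ∑ t ∈ T, |D t| := by
    have h2 : ∑ x ∈ W, f x * ψ x = ∑ x ∈ W, (((if x ∈ A then (1 : ℝ) else 0) - α : ℝ) : ℂ) * ψ x := by
      have h3 := sum_nonconst (mem_filter.1 hψ).2
      have h4 : ∑ x ∈ W, (((if x ∈ A then (1 : ℝ) else 0) - α : ℝ) : ℂ) * ψ x =
          ∑ x ∈ W, f x * ψ x - (α : ℂ) * ∑ x ∈ W, ψ x := by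
        rw [mul_sum, ← sum_sub_distrib]
        refine sum_congr rfl fun x _ => ?_
        simp only [hf]
        push_cast
        split_ifs <;> push_cast <;> ring
      rw [h4, h3, mul_zero, sub_zero]
    have h5 : ∑ x ∈ W, (((if x ∈ A then (1 : ℝ) else 0) - α : ℝ) : ℂ) * ψ x =
        ∑ t ∈ T, ((D t : ℝ) : ℂ) * t := by
      rw [← sum_fiberwise_of_maps_to (s := W) (t := T) (g := fun x => ψ x)
        (fun x hx => mem_image_of_mem _ hx)]
      refine sum_congr rfl fun t _ => ?_
      simp only [hD]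
      rw [Complex.ofReal_sum, sum_mul]
      refine sum_congr rfl fun x hx => ?_
      rw [(mem_filter.1 hx).2]
    rw [h2, h5]
    refine (norm_sum_le _ _).trans (sum_le_sum fun t ht => ?_)
    obtain ⟨x₁, -, rfl⟩ := mem_image.1 ht
    rw [norm_mul, AddChar.norm_apply, mul_one, Complex.norm_real, Real.norm_eq_abs]
  have habs : ∑ t ∈ T, |D t| < 2 * δ * N := by
    have h2 : ∑ t ∈ T, |D t| = ∑ t ∈ T, (|D t| + D t) := by
      rw [sum_add_distrib, hDsum, add_zero]
    rw [h2, ← hcard, mul_sum]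
    refine sum_lt_sum_of_nonempty ⟨ψ x₀, mem_image_of_mem _ (self_mem L x₀)⟩ fun t ht => ?_
    have h3 := hfib t ht
    obtain ⟨x₁, hx₁, rfl⟩ := mem_image.1 ht
    have h4 : (0 : ℝ) < ((W.filter fun x => ψ x = ψ x₁).card : ℝ) := by
      rw [Nat.cast_pos, card_pos]
      exact ⟨x₁, mem_filter.2 ⟨hx₁, rfl⟩⟩
    rcases le_total 0 (D (ψ x₁)) with h5 | h5
    · rw [abs_of_nonneg h5]
      linarith
    · rw [abs_of_nonpos h5]
      have := mul_pos hδpos h4
      linarith
  have hfin : 2 * δ * N = (1 - α) * (α * N) / M := by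
    rw [hδ]
    field_simp
  rw [hfin] at habs
  linarith

/-- **Iteration.** -/
theorem iterate (A : Finset G) (hA : A.Nonempty) {M η : ℝ} (hM1 : 1 ≤ M) (hM : specNorm A ≤ M)
    (hη : 0 < η) (hη1 : η < 1) : ∀ s : ℕ, ∃ (L : Finset (AddChar G ℂ)) (x₀ : G), L.card ≤ s ∧
      ((1 - η) * (level L x₀).card < ((A ∩ level L x₀).card : ℝ) ∨
        (A.card : ℝ) / Fintype.card G * (1 + η / (2 * M)) ^ s * (level L x₀).card ≤
          ((A ∩ level L x₀).card : ℝ))
  | 0 => by
    have hc : (Fintype.card G : ℝ) ≠ 0 := by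
      rw [Nat.cast_ne_zero]
      exact Fintype.card_ne_zero
    refine ⟨∅, 0, le_rfl, Or.inr ?_⟩
    have h1 : level (∅ : Finset (AddChar G ℂ)) 0 = (univ : Finset G) := by
      ext x
      simp [mem_level]
    rw [h1, pow_zero, mul_one, inter_univ, card_univ, div_mul_cancel₀ _ hc]
  | s + 1 => by
    obtain ⟨L, x₀, hL, h⟩ := iterate A hA hM1 hM hη hη1 s
    by_cases h1 : (1 - η) * (level L x₀).card < ((A ∩ level L x₀).card : ℝ)
    · exact ⟨L, x₀, hL.trans (Nat.le_succ s), Or.inl h1⟩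
    · have h2 := h.resolve_left h1
      push Not at h1
      have hNpos : (0 : ℝ) < (level L x₀).card := by
        rw [Nat.cast_pos, card_pos]
        exact ⟨x₀, self_mem L x₀⟩
      have hβ : (0 : ℝ) < (A.card : ℝ) / Fintype.card G * (1 + η / (2 * M)) ^ s := by
        refine mul_pos (div_pos ?_ ?_) (pow_pos ?_ _)
        · rw [Nat.cast_pos, card_pos]
          exact hA
        · rw [Nat.cast_pos]
          exact Fintype.card_pos
        · have := div_pos hη (by linarith : (0 : ℝ) < 2 * M)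
          linarith
      set α : ℝ := ((A ∩ level L x₀).card : ℝ) / (level L x₀).card with hα
      have hα1 : ((A ∩ level L x₀).card : ℝ) = α * (level L x₀).card := by
        rw [hα, div_mul_cancel₀ _ hNpos.ne']
      have hα2 : α ≤ 1 - η := by
        rw [hα, div_le_iff₀ hNpos]
        exact h1
      have hα3 : (A.card : ℝ) / Fintype.card G * (1 + η / (2 * M)) ^ s ≤ α := by
        rw [hα, le_div_iff₀ hNpos]
        exact h2
      have hα0 : 0 < α := lt_of_lt_of_le hβ hα3
      obtain ⟨ψ, x₁, h3⟩ := increment A L x₀ hM1 hM hα1 hα0 (by linarith)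
      refine ⟨insert ψ L, x₁, (card_insert_le _ _).trans (Nat.succ_le_succ hL), Or.inr ?_⟩
      refine le_trans ?_ h3
      refine mul_le_mul_of_nonneg_right ?_ (Nat.cast_nonneg _)
      have h4 : α * (1 + η / (2 * M)) ≤ α + α * (1 - α) / (2 * M) := by
        have h5 : α * (η / (2 * M)) ≤ α * (1 - α) / (2 * M) := by
          rw [mul_div_assoc]
          refine mul_le_mul_of_nonneg_left ?_ hα0.le
          exact div_le_div_of_nonneg_right (by linarith) (by linarith)
        linarith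
      refine le_trans ?_ h4
      rw [pow_succ, ← mul_assoc]
      refine mul_le_mul_of_nonneg_right hα3 ?_
      have := div_pos hη (by linarith : (0 : ℝ) < 2 * M)
      linarith

/-- **Dense pieces.** A non-empty set `A` of spectral norm at most `M` has density greater than
`1 - η` in a level set of at most `(2 M / η + 1) log (|G| / |A|) + 1` characters. -/
theorem dense_piece (A : Finset G) (hA : A.Nonempty) {M η : ℝ} (hM1 : 1 ≤ M) (hM : specNorm A ≤ M)
    (hη : 0 < η) (hη1 : η < 1) : ∃ (L : Finset (AddChar G ℂ)) (x₀ : G),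
      (L.card : ℝ) ≤ (2 * M / η + 1) * Real.log (Fintype.card G / A.card) + 1 ∧
      (1 - η) * (level L x₀).card < ((A ∩ level L x₀).card : ℝ) := by
  have hGpos : (0 : ℝ) < Fintype.card G := by
    rw [Nat.cast_pos]
    exact Fintype.card_pos
  have hApos : (0 : ℝ) < A.card := by
    rw [Nat.cast_pos, card_pos]
    exact hA
  have hle : (A.card : ℝ) ≤ Fintype.card G := by
    exact_mod_cast card_le_univ A
  set l := Real.log (Fintype.card G / A.card) with hl
  have hl0 : 0 ≤ l := Real.log_nonneg (by rw [le_div_iff₀ hApos]; linarith)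
  set x : ℝ := η / (2 * M) with hx
  have hxpos : 0 < x := div_pos hη (by linarith)
  have hC : 2 * M / η + 1 = (1 + x) / x := by
    rw [hx]
    field_simp
  set s := ⌊(2 * M / η + 1) * l⌋₊ + 1 with hs
  have hC0 : 0 ≤ (2 * M / η + 1) * l := by
    rw [hC]
    exact mul_nonneg (div_nonneg (by linarith) hxpos.le) hl0
  have hs1 : (2 * M / η + 1) * l < s := by
    rw [hs]
    push_cast
    exact Nat.lt_floor_add_one _
  have hs2 : (s : ℝ) ≤ (2 * M / η + 1) * l + 1 := by
    rw [hs]
    push_cast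
    have := Nat.floor_le hC0
    linarith
  obtain ⟨L, x₀, h1, h2⟩ := iterate A hA hM1 hM hη hη1 s
  refine ⟨L, x₀, le_trans (by exact_mod_cast h1) hs2, ?_⟩
  rcases h2 with h2 | h2
  · exact h2
  · exfalso
    have hNpos : (0 : ℝ) < (level L x₀).card := by
      rw [Nat.cast_pos, card_pos]
      exact ⟨x₀, self_mem L x₀⟩
    have h3 : ((A ∩ level L x₀).card : ℝ) ≤ (level L x₀).card := by
      exact_mod_cast card_le_card inter_subset_right
    have h4 : (A.card : ℝ) / Fintype.card G * (1 + x) ^ s ≤ 1 := by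
      have h5 := h2.trans h3
      by_contra h6
      push Not at h6
      have := mul_lt_mul_of_pos_right h6 hNpos
      linarith
    have h7 : Real.log ((A.card : ℝ) / Fintype.card G * (1 + x) ^ s) ≤ 0 := by
      apply Real.log_nonpos _ h4
      positivity
    rw [Real.log_mul (by positivity) (by positivity), Real.log_pow] at h7
    have h8 : Real.log ((A.card : ℝ) / Fintype.card G) = - l := by
      rw [hl, ← Real.log_inv, inv_div]
    have h9 : x / (1 + x) ≤ Real.log (1 + x) := by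
      have h10 := Real.one_sub_inv_le_log_of_pos (by linarith : 0 < 1 + x)
      refine le_trans (le_of_eq ?_) h10
      field_simp
      ring
    rw [h8] at h7
    have h11 : (s : ℝ) * (x / (1 + x)) ≤ l := by
      have := mul_le_mul_of_nonneg_left h9 (Nat.cast_nonneg s : (0 : ℝ) ≤ s)
      linarith
    rw [hC] at hs1
    have h12 : l < s * (x / (1 + x)) := by
      have h13 : (0 : ℝ) < x / (1 + x) := div_pos hxpos (by linarith)
      have h14 := mul_lt_mul_of_pos_right hs1 h13
      have h15 : (1 + x) / x * l * (x / (1 + x)) = l := by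
        field_simp
      rw [h15] at h14
      exact h14
    linarith

end

end Pool.Agent.Q137.SN
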